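import Pool.Agent.E8helper59.TS.Stm3

/-!
TS27: the density bound for all convex bodies, when the separating hyperplanes are parallel to all
but one factor of a decomposition of the space into planes and lines.
-/

set_option autoImplicit false
open MeasureTheory Set Filter Topology
open scoped Pointwise ENNReal

namespace Pool.Agent.E8helper93.TS

open Pool.Agent.E8helper59.TS

/-- the absolute value of the determinant -/
noncomputable def dt {k m : ℕ} (Λ : G k m ≃L[ℝ] G k m) : ℝ :=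
  |LinearMap.det ((Λ : G k m →L[ℝ] G k m) : G k m →ₗ[ℝ] G k m)|

lemma haar (k m : ℕ) : (volume : Measure (G k m)).IsAddHaarMeasure := by
  have h2 : (volume : Measure (ℝ × ℝ)).IsAddHaarMeasure := by
    rw [Measure.volume_eq_prod]; infer_instance
  have h3 : (volume : Measure (Fin k → ℝ × ℝ)).IsAddHaarMeasure := by
    rw [volume_pi]; infer_instance
  have h4 : (volume : Measure (Fin m → ℝ)).IsAddHaarMeasure := inferInstance
  exact Measure.prod.instIsAddHaarMeasure (volume : Measure (Fin k → ℝ × ℝ))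
    (volume : Measure (Fin m → ℝ))

lemma vol_im {k m : ℕ} (Λ : G k m ≃L[ℝ] G k m) (S : Set (G k m)) :
    volume (Λ '' S) = ENNReal.ofReal (dt Λ) * volume S := by
  have := haar k m
  exact Measure.addHaar_image_continuousLinearEquiv volume Λ S

lemma dt_mul {k m : ℕ} (Λ : G k m ≃L[ℝ] G k m) : dt Λ * dt Λ.symm = 1 := by
  unfold dt
  rw [← abs_mul, ← LinearMap.det_comp]
  have : ((Λ : G k m →L[ℝ] G k m) : G k m →ₗ[ℝ] G k m) ∘ₗ
      ((Λ.symm : G k m →L[ℝ] G k m) : G k m →ₗ[ℝ] G k m) = LinearMap.id := by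
    exact LinearMap.ext fun x => by simp
  rw [this]
  simp

lemma dt_pos {k m : ℕ} (Λ : G k m ≃L[ℝ] G k m) : 0 < dt Λ := by
  have h0 : 0 ≤ dt Λ := abs_nonneg _
  rcases h0.lt_or_eq with h | h
  · exact h
  · have := dt_mul Λ
    rw [← h, zero_mul] at this
    exact absurd this (by norm_num)

lemma vol_ballG (k m : ℕ) (ℓ : ℝ) (hℓ : 0 < ℓ) :
    volume (Metric.closedBall (0 : G k m) ℓ) =
      ENNReal.ofReal ((∏ _i : Fin k, (2 * ℓ) ^ 2) * ∏ _j : Fin m, (2 * ℓ)) := by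
  have e1 : Metric.closedBall (0 : G k m) ℓ =
      Metric.closedBall (0 : Fin k → ℝ × ℝ) ℓ ×ˢ Metric.closedBall (0 : Fin m → ℝ) ℓ := by
    rw [closedBall_prod_same]; rfl
  have e2 : volume (Metric.closedBall (0 : ℝ × ℝ) ℓ) = ENNReal.ofReal ((2 * ℓ) ^ 2) := by
    have : Metric.closedBall (0 : ℝ × ℝ) ℓ =
        Metric.closedBall (0 : ℝ) ℓ ×ˢ Metric.closedBall (0 : ℝ) ℓ := by
      rw [closedBall_prod_same]; rfl
    rw [this, Measure.volume_eq_prod, Measure.prod_prod, Real.volume_closedBall,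
      ← ENNReal.ofReal_mul (by positivity)]
    congr 1
    ring
  rw [e1, Measure.volume_eq_prod, Measure.prod_prod, closedBall_pi _ hℓ.le, closedBall_pi _ hℓ.le,
    volume_pi_pi, volume_pi_pi]
  simp only [Pi.zero_apply]
  rw [e2, Real.volume_closedBall, Finset.prod_const, Finset.prod_const, Finset.prod_const,
    Finset.prod_const, ← ENNReal.ofReal_pow (by positivity), ← ENNReal.ofReal_pow (by positivity),
    ← ENNReal.ofReal_mul (by positivity)]

lemma lim_quot (k m : ℕ) (C : ℝ) (A : Fin k → ℝ) (w : Fin m → ℝ) :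
    Tendsto (fun ℓ : ℝ => ((∏ i, ((2 * ℓ + C) ^ 2 + A i)) * ∏ j, (2 * ℓ + w j)) /
      ((∏ _i : Fin k, (2 * ℓ) ^ 2) * ∏ _j : Fin m, (2 * ℓ))) atTop (𝓝 1) := by
  have h1 : Tendsto (fun ℓ : ℝ => (2 * ℓ)⁻¹) atTop (𝓝 0) :=
    tendsto_inv_atTop_zero.comp (tendsto_id.const_mul_atTop (by norm_num : (0 : ℝ) < 2))
  have h2 : Tendsto (fun ℓ : ℝ => (∏ i : Fin k, ((1 + C * (2 * ℓ)⁻¹) ^ 2 + A i * ((2 * ℓ)⁻¹) ^ 2)) *
      ∏ j : Fin m, (1 + w j * (2 * ℓ)⁻¹)) atTop
      (𝓝 ((∏ i : Fin k, ((1 + C * 0) ^ 2 + A i * 0 ^ 2)) * ∏ j : Fin m, (1 + w j * 0))) := by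
    apply Tendsto.mul
    · apply tendsto_finsetProd
      intro i _
      exact (((h1.const_mul C).const_add 1).pow 2).add ((h1.pow 2).const_mul (A i))
    · apply tendsto_finsetProd
      intro j _
      exact (h1.const_mul (w j)).const_add 1
  have e : (∏ i : Fin k, ((1 + C * 0) ^ 2 + A i * 0 ^ 2)) * ∏ j : Fin m, (1 + w j * 0) = (1 : ℝ) := by
    simp
  rw [e] at h2
  refine h2.congr' ?_
  filter_upwards [eventually_gt_atTop (0 : ℝ)] with ℓ hℓ
  rw [mul_div_mul_comm, ← Finset.prod_div_distrib, ← Finset.prod_div_distrib]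
  congr 1
  · apply Finset.prod_congr rfl
    intro i _
    field_simp
  · apply Finset.prod_congr rfl
    intro j _
    field_simp

theorem t_MAIN3 (h1 : S_BOX) (h2 : S_VOLG) (h3 : S_AVG) : S_MAIN3 := by
  classical
  intro k m Λ K P₀ hKc hKv hKi hP hKP hmin T hT
  have hint : ∀ S : Set (G k m), interior (Λ '' S) = Λ '' interior S := fun S =>
    (Λ.toHomeomorph.image_interior S).symm
  have hd := dt_pos Λ
  -- the images
  have hK'c : IsCompact (Λ '' K) := hKc.image Λ.continuous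
  have hK'v : Convex ℝ (Λ '' K) := hKv.linear_image ((Λ : G k m →L[ℝ] G k m) : G k m →ₗ[ℝ] G k m)
  have hK'i : (interior (Λ '' K)).Nonempty := by
    rw [hint]; exact hKi.image _
  have hPim : ∀ (Φ : G k m ≃L[ℝ] G k m) (P : Set (G k m)), PtopeG k m P →
      PtopeG k m (Φ '' P) := by
    rintro Φ P ⟨v, L, rfl⟩
    refine ⟨Φ v, L.trans Φ, ?_⟩
    rw [image_image]
    apply image_congr
    intro x _
    simp
  have hmin' : ∀ P, PtopeG k m P → Λ '' K ⊆ P → volume (Λ '' P₀) ≤ volume P := by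
    intro P hPP hsub
    have h4 := hmin (Λ.symm '' P) (hPim Λ.symm P hPP) (by
      intro x hx
      exact ⟨Λ x, hsub ⟨x, hx, rfl⟩, by simp⟩)
    have h5 : volume P = ENNReal.ofReal (dt Λ) * volume (Λ.symm '' P) := by
      rw [← vol_im, image_image]
      simp
    rw [vol_im, h5]
    gcongr
  obtain ⟨hV0, hVt, A, w, hDat, hVle⟩ := h2 k m (Λ '' K) (Λ '' P₀) hK'c hK'v hK'i
    (hPim Λ P₀ hP) hmin'
  -- total separability
  have hT' : TotSepS k m (ContinuousLinearEquiv.refl ℝ (G k m)) (Λ '' K) (Λ '' T) := by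
    rintro _ ⟨t, ht, rfl⟩ _ ⟨s, hs, rfl⟩ hne
    obtain ⟨f, c, hf0, ⟨g, hg, hfg⟩, hft, hfs, hfr⟩ := hT t ht s hs (fun h => hne (by rw [h]))
    refine ⟨g, c, ?_, ⟨g, hg, fun x => rfl⟩, ?_, ?_, ?_⟩
    · intro h0
      apply hf0
      ext x
      · simp only [ContinuousLinearMap.comp_apply]
        rw [hfg]
        simp [h0]
      · simp only [ContinuousLinearMap.comp_apply]
        rw [hfg]
        simp [h0]
    · rintro _ ⟨x, hx, rfl⟩
      rw [← map_add, ← hfg]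
      exact hft x hx
    · rintro _ ⟨x, hx, rfl⟩
      rw [← map_add, ← hfg]
      exact hfs x hx
    · rintro _ ⟨r, hr, rfl⟩ y hy
      have e : (fun x => Λ r + x) '' (Λ '' K) = Λ '' ((fun x => r + x) '' K) := by
        rw [image_image, image_image]
        apply image_congr
        intro x _
        simp
      rw [e, hint] at hy
      obtain ⟨y₀, hy₀, rfl⟩ := hy
      rw [← hfg]
      exact hfr r hr y₀ hy₀
  obtain ⟨C, hC, hbox⟩ := h1 k m (Λ '' K) (Λ '' T) A w hK'c hK'v hK'i hT' hDat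
  -- the volume of `P₀`
  have hVim := vol_im Λ P₀
  have hPt : volume P₀ ≠ ⊤ := by
    intro h
    rw [hVim, h, ENNReal.mul_top (by simpa using hd)] at hVt
    exact hVt rfl
  have hreal : (volume (Λ '' P₀)).toReal = dt Λ * (volume P₀).toReal := by
    rw [hVim, ENNReal.toReal_mul, ENNReal.toReal_ofReal hd.le]
  have hP0pos : 0 < (volume P₀).toReal := by
    rw [hreal] at hV0
    exact (mul_pos_iff_of_pos_left hd).mp hV0
  have hfinal := h3 k m K T Λ (volume P₀).toReal hP0pos hKc (hKi.mono interior_subset) ?_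
  · rwa [ENNReal.ofReal_toReal hPt] at hfinal
  intro ε hε
  have hev := (lim_quot k m C A w).eventually (ge_mem_nhds (show (1 : ℝ) < 1 + ε by linarith))
  obtain ⟨ℓ, hℓ, hℓ0⟩ := (hev.and (eventually_gt_atTop 0)).exists
  refine ⟨ℓ, hℓ0, fun y F hF => ?_⟩
  have hQ : 0 < (∏ _i : Fin k, (2 * ℓ) ^ 2) * ∏ _j : Fin m, (2 * ℓ) := by positivity
  have hvol : (volume (Λ.symm '' Metric.closedBall 0 ℓ)).toReal =
      dt Λ.symm * ((∏ _i : Fin k, (2 * ℓ) ^ 2) * ∏ _j : Fin m, (2 * ℓ)) := by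
    rw [vol_im, vol_ballG k m ℓ hℓ0, ENNReal.toReal_mul, ENNReal.toReal_ofReal (dt_pos _).le,
      ENNReal.toReal_ofReal hQ.le]
  have hcard : (F.image Λ).card = F.card := Finset.card_image_of_injective F Λ.injective
  have hb := hbox (F.image Λ) y ℓ hℓ0.le (by
    intro t ht
    obtain ⟨t₀, ht₀, rfl⟩ := Finset.mem_image.mp ht
    exact ⟨⟨t₀, (hF t₀ ht₀).1, rfl⟩, (hF t₀ ht₀).2⟩)
  rw [hcard] at hb
  have hq : (∏ i, ((2 * ℓ + C) ^ 2 + A i)) * ∏ j, (2 * ℓ + w j) ≤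
      (1 + ε) * ((∏ _i : Fin k, (2 * ℓ) ^ 2) * ∏ _j : Fin m, (2 * ℓ)) := by
    rwa [div_le_iff₀ hQ] at hℓ
  have hkey : (F.card : ℝ) * (dt Λ * (volume P₀).toReal) ≤
      (1 + ε) * ((∏ _i : Fin k, (2 * ℓ) ^ 2) * ∏ _j : Fin m, (2 * ℓ)) := by
    rw [← hreal]
    exact (mul_le_mul_of_nonneg_left hVle (Nat.cast_nonneg _)).trans (hb.trans hq)
  rw [hvol]
  have hds := dt_pos Λ.symm
  have := mul_le_mul_of_nonneg_left hkey hds.le
  calc (F.card : ℝ) * (volume P₀).toReal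
      = dt Λ.symm * ((F.card : ℝ) * (dt Λ * (volume P₀).toReal)) := by
        have := dt_mul Λ
        linear_combination (-(F.card : ℝ) * (volume P₀).toReal) * this
    _ ≤ dt Λ.symm * ((1 + ε) * ((∏ _i : Fin k, (2 * ℓ) ^ 2) * ∏ _j : Fin m, (2 * ℓ))) := this
    _ = (1 + ε) * (dt Λ.symm * ((∏ _i : Fin k, (2 * ℓ) ^ 2) * ∏ _j : Fin m, (2 * ℓ))) := by ring

end Pool.Agent.E8helper93.TS
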